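import Pool.Agent.H242R3.ES.Stmts

set_option autoImplicit false
set_option maxHeartbeats 4000000

/-! Task ES-GLUE of the project H242-ES (helper138). -/

namespace Pool.Agent.H138R3.ES.Glue

open Finset Pool.Agent.H242R3.ES

/-- the Lorentz form as a bilinear map -/
noncomputable def Bl (D : ℕ) : LV D →ₗ[ℝ] LV D →ₗ[ℝ] ℝ :=
  LinearMap.mk₂ ℝ B
    (fun x x' y => by
      simp only [B, Pi.add_apply, add_mul, Finset.sum_add_distrib]; ring)
    (fun c x y => by
      simp only [B, Pi.smul_apply, smul_eq_mul, mul_sub, Finset.mul_sum, mul_assoc])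
    (fun x y y' => by
      simp only [B, Pi.add_apply, mul_add, Finset.sum_add_distrib]; ring)
    (fun c x y => by
      simp only [B, Pi.smul_apply, smul_eq_mul, mul_sub, Finset.mul_sum]
      congr 1
      · apply Finset.sum_congr rfl; intro i _; ring
      · ring)

theorem Bl_apply {D : ℕ} (x y : LV D) : Bl D x y = B x y := rfl

theorem B_symm {D : ℕ} (x y : LV D) : B x y = B y x := by
  simp only [B]
  congr 1
  · apply Finset.sum_congr rfl; intro i _; ring
  · ring

theorem B_nondeg {D : ℕ} (x : LV D) (h : ∀ y, B x y = 0) : x = 0 := by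
  funext k
  cases k with
  | none =>
    have := h (Pi.single none 1)
    simpa [B, Pi.single_apply] using this
  | some j =>
    have := h (Pi.single (some j) 1)
    simpa [B, Pi.single_apply] using this

/-- spanning families with the same Gram matrix are related by an isometry -/
theorem exists_map {D : ℕ} {κ : Type} (W W' : κ → LV D)
    (hW : Submodule.span ℝ (Set.range W) = ⊤) (hW' : Submodule.span ℝ (Set.range W') = ⊤)
    (h : ∀ i j, B (W i) (W j) = B (W' i) (W' j)) :
    ∃ T : LV D →ₗ[ℝ] LV D, (∀ x y, B (T x) (T y) = B x y) ∧ ∀ i, T (W i) = W' i := by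
  set L := Finsupp.linearCombination ℝ W with hL
  set L' := Finsupp.linearCombination ℝ W' with hL'
  have hrange : LinearMap.range L = ⊤ := by
    rw [hL, Finsupp.range_linearCombination]; exact hW
  obtain ⟨g, hg⟩ := LinearMap.exists_rightInverse_of_surjective L hrange
  have hgx : ∀ x, L (g x) = x := fun x => by
    have := congrArg (fun f => f x) hg
    simpa using this
  have key : ∀ c d : κ →₀ ℝ, B (L' c) (L' d) = B (L c) (L d) := by
    intro c d
    rw [← Bl_apply, ← Bl_apply]
    have e1 : (Bl D).compl₁₂ L' L' = (Bl D).compl₁₂ L L := by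
      apply Finsupp.lhom_ext'
      intro i
      apply LinearMap.ext_ring
      apply Finsupp.lhom_ext'
      intro j
      apply LinearMap.ext_ring
      simp [hL, hL', Bl_apply, h]
    have := congrArg (fun f => f c d) e1
    simpa using this
  have hker : ∀ c, L c = 0 → L' c = 0 := by
    intro c hc
    apply B_nondeg
    intro y
    have hrange' : LinearMap.range L' = ⊤ := by
      rw [hL', Finsupp.range_linearCombination]; exact hW'
    obtain ⟨d, rfl⟩ := LinearMap.range_eq_top.mp hrange' y
    rw [key, hc, ← Bl_apply]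
    simp
  refine ⟨L' ∘ₗ g, ?_, ?_⟩
  · intro x y
    simp only [LinearMap.comp_apply]
    rw [key, hgx, hgx]
  · intro i
    simp only [LinearMap.comp_apply]
    have h1 : L (g (W i) - Finsupp.single i 1) = 0 := by
      rw [map_sub, hgx, hL]
      simp
    have h2 := hker _ h1
    rw [map_sub, sub_eq_zero] at h2
    rw [h2, hL']
    simp

section

variable {D : ℕ} {ι : Type} [Fintype ι] {V : ι → LV D}

theorem SPtoSC (h : SP D V) : SC V := ⟨h.vert, h.span, h.simp⟩

theorem card_ge (h : SP D V) : D + 1 ≤ Fintype.card ι := by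
  have h1 := finrank_range_le_card (R := ℝ) V
  rw [Set.finrank, h.span, finrank_top] at h1
  simpa using h1

theorem ne_univ1 (hD : 4 ≤ D) (h : SP D V) (v : ι) : ({v} : Set ι) ≠ Set.univ := by
  intro h1
  have h2 := congrArg Set.ncard h1
  rw [Set.ncard_univ, Set.ncard_singleton, Nat.card_eq_fintype_card] at h2
  have := card_ge h
  omega

theorem ne_univ2 (hD : 4 ≤ D) (h : SP D V) (v u : ι) : ({v, u} : Set ι) ≠ Set.univ := by
  intro h1
  have h2 := congrArg Set.ncard h1
  rw [Set.ncard_univ, Nat.card_eq_fintype_card] at h2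
  have h3 : ({v, u} : Set ι).ncard ≤ 2 := by
    refine (Set.ncard_insert_le _ _).trans ?_
    rw [Set.ncard_singleton]
  have := card_ge h
  omega

theorem ne_univ3 (hD : 4 ≤ D) (h : SP D V) (k v u : ι) : ({k, v, u} : Set ι) ≠ Set.univ := by
  intro h1
  have h2 := congrArg Set.ncard h1
  rw [Set.ncard_univ, Nat.card_eq_fintype_card] at h2
  have h3 : ({k, v, u} : Set ι).ncard ≤ 3 := by
    refine (Set.ncard_insert_le _ _).trans ?_
    have : ({v, u} : Set ι).ncard ≤ 2 := by
      refine (Set.ncard_insert_le _ _).trans ?_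
      rw [Set.ncard_singleton]
    omega
  have := card_ge h
  omega

theorem c2_one (C2 : TaskC2) (hD : 4 ≤ D) (h : SP D V) (v i : ι) :
    ∃ (y : LV D) (a : ι → ℝ), y ∈ Submodule.span ℝ {V v} ∧ (∀ k, 0 ≤ a k) ∧
    (∀ k, a k ≠ 0 → k ≠ v ∧ Face V {v, k}) ∧ V i = y + ∑ k, a k • V k := by
  obtain ⟨y, a, h1, h2, h3, h4⟩ := C2 ι (LV D) V (SPtoSC h) {v} (h.vert v) (ne_univ1 hD h v)
    (by
      rw [Set.image_singleton]
      have := finrank_span_finset_le_card (R := ℝ) ({V v} : Finset (LV D))
      rw [Set.finrank, Finset.coe_singleton, Finset.card_singleton] at this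
      have h5 : Module.finrank ℝ (LV D) = D + 1 := by simp
      omega) i
  refine ⟨y, a, by rwa [Set.image_singleton] at h1, h2, ?_, h4⟩
  intro k hk
  obtain ⟨h5, h6⟩ := h3 k hk
  refine ⟨by simpa using h5, ?_⟩
  rwa [Set.pair_comm]

theorem c2_two (C2 : TaskC2) (hD : 4 ≤ D) (h : SP D V) (v u i : ι) (hf : Face V {v, u}) :
    ∃ (y : LV D) (a : ι → ℝ), y ∈ Submodule.span ℝ {V v, V u} ∧ (∀ k, 0 ≤ a k) ∧
    (∀ k, a k ≠ 0 → Face V {k, v, u}) ∧ V i = y + ∑ k, a k • V k := by
  obtain ⟨y, a, h1, h2, h3, h4⟩ := C2 ι (LV D) V (SPtoSC h) {v, u} hf (ne_univ2 hD h v u)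
    (by
      rw [Set.image_pair]
      have := finrank_span_finset_le_card (R := ℝ) ({V v, V u} : Finset (LV D))
      rw [Set.finrank, Finset.coe_pair] at this
      have h6 : ({V v, V u} : Finset (LV D)).card ≤ 2 := Finset.card_le_two
      have h5 : Module.finrank ℝ (LV D) = D + 1 := by simp
      omega) i
  refine ⟨y, a, by rwa [Set.image_pair] at h1, h2, ?_, h4⟩
  intro k hk
  exact (h3 k hk).2

theorem span_nb (C2 : TaskC2) (hD : 4 ≤ D) (h : SP D V) (v : ι) :
    Submodule.span ℝ (Set.range (fun k : {k : ι // k = v ∨ k ∈ Nb V v} => V k)) = ⊤ := by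
  rw [eq_top_iff, ← h.span, Submodule.span_le]
  rintro _ ⟨i, rfl⟩
  obtain ⟨y, a, h1, h2, h3, h4⟩ := c2_one C2 hD h v i
  rw [SetLike.mem_coe, h4]
  apply Submodule.add_mem
  · refine Submodule.span_mono ?_ h1
    rw [Set.singleton_subset_iff]
    exact ⟨⟨v, Or.inl rfl⟩, rfl⟩
  · apply Submodule.sum_mem
    intro k _
    by_cases hk : a k = 0
    · rw [hk, zero_smul]; exact Submodule.zero_mem _
    · apply Submodule.smul_mem
      apply Submodule.subset_span
      exact ⟨⟨k, Or.inr (h3 k hk)⟩, rfl⟩

theorem agree (C1 : TaskC1) (C2 : TaskC2) (hD : 4 ≤ D) (h : SP D V) (V' : ι → LV D) (v u : ι)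
    (hf : Face V {v, u}) (hvu : u ≠ v) (T T' : LV D →ₗ[ℝ] LV D)
    (hT : ∀ k, (k = v ∨ k ∈ Nb V v) → T (V k) = V' k)
    (hT' : ∀ k, (k = u ∨ k ∈ Nb V u) → T' (V k) = V' k) : T = T' := by
  have huv : Face V {u, v} := by rwa [Set.pair_comm]
  have hTv : T (V v) = T' (V v) := by
    rw [hT v (Or.inl rfl), hT' v (Or.inr ⟨hvu.symm, huv⟩)]
  have hTu : T (V u) = T' (V u) := by
    rw [hT u (Or.inr ⟨hvu, hf⟩), hT' u (Or.inl rfl)]
  have hall : ∀ i, T (V i) = T' (V i) := by
    intro i
    obtain ⟨y, a, h1, h2, h3, h4⟩ := c2_two C2 hD h v u i hf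
    rw [h4, map_add, map_add, map_sum, map_sum]
    congr 1
    · have : Submodule.span ℝ {V v, V u} ≤ LinearMap.eqLocus T T' := by
        rw [Submodule.span_le]
        intro x hx
        rcases hx with rfl | hx
        · exact hTv
        · rw [Set.mem_singleton_iff] at hx
          subst hx
          exact hTu
      exact this h1
    · apply Finset.sum_congr rfl
      intro k _
      rw [map_smul, map_smul]
      by_cases hk : a k = 0
      · rw [hk, zero_smul, zero_smul]
      · congr 1
        have hF := h3 k hk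
        have hn := ne_univ3 hD h k v u
        have hF1 : Face V {v, k} := C1 ι (LV D) V (SPtoSC h) _ _ hF hn (by
          intro x hx; rcases hx with rfl | hx
          · simp
          · rw [Set.mem_singleton_iff] at hx; subst hx; simp)
        have hF2 : Face V {u, k} := C1 ι (LV D) V (SPtoSC h) _ _ hF hn (by
          intro x hx; rcases hx with rfl | hx
          · simp
          · rw [Set.mem_singleton_iff] at hx; subst hx; simp)
        have e1 : T (V k) = V' k := by
          apply hT
          by_cases hkv : k = v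
          · exact Or.inl hkv
          · exact Or.inr ⟨hkv, hF1⟩
        have e2 : T' (V k) = V' k := by
          apply hT'
          by_cases hkv : k = u
          · exact Or.inl hkv
          · exact Or.inr ⟨hkv, hF2⟩
        rw [e1, e2]
  apply LinearMap.ext_on_range h.span hall

end

theorem t : TaskGlue := by
  intro C1 C2 SI D hD ι _ V V' h h' hF
  have hNb : ∀ v, Nb V' v = Nb V v := by
    intro v
    ext k
    simp only [Nb, Set.mem_ofPred_eq, hF]
  have hTex : ∀ v : ι, ∃ T : LV D →ₗ[ℝ] LV D, (∀ x y, B (T x) (T y) = B x y) ∧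
      ∀ k, (k = v ∨ k ∈ Nb V v) → T (V k) = V' k := by
    intro v
    obtain ⟨T, hT1, hT2⟩ := exists_map (fun k : {k : ι // k = v ∨ k ∈ Nb V v} => V k)
      (fun k : {k : ι // k = v ∨ k ∈ Nb V v} => V' k) (span_nb C2 hD h v)
      (by
        have := span_nb C2 hD h' v
        rwa [hNb v] at this)
      (by
        rintro ⟨i, hi⟩ ⟨j, hj⟩
        simp only
        have hedge : ∀ k ∈ Nb V v, B (V v) (V k) = B (V' v) (V' k) := by
          intro k hk
          rw [h.edge v k hk.1.symm hk.2, h'.edge v k hk.1.symm ((hF _).mp hk.2)]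
        rcases hi with rfl | hi <;> rcases hj with rfl | hj
        · rw [h.norm, h'.norm]
        · exact hedge j hj
        · rw [B_symm (V i), B_symm (V' i)]; exact hedge i hi
        · exact SI D hD ι V V' h h' hF v i j hi hj)
    exact ⟨T, hT1, fun k hk => hT2 ⟨k, hk⟩⟩
  choose T hT1 hT2 using hTex
  have hne : Nonempty ι := by
    have := card_ge h
    exact Fintype.card_pos_iff.mp (by omega)
  obtain ⟨v0⟩ := hne
  obtain ⟨l0, hl0, hl0'⟩ := h.vert v0
  have hall : ∀ k, T k = T v0 := by
    by_contra hcon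
    push Not at hcon
    obtain ⟨k0, hk0⟩ := hcon
    classical
    obtain ⟨k, hk, hmin⟩ := Finset.exists_min_image (Finset.univ.filter (fun k => T k ≠ T v0))
      (fun k => l0 (V k) / V k none) ⟨k0, by simpa using hk0⟩
    simp only [Finset.mem_filter, Finset.mem_univ, true_and] at hk hmin
    have hkv : k ≠ v0 := by rintro rfl; exact hk rfl
    have hl0k : 0 < l0 (V k) := by
      refine lt_of_le_of_ne (hl0 k) (fun he => hkv ?_)
      have := (hl0' k).mpr he.symm
      simpa using this
    set r := l0 (V k) / V k none with hr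
    have hrpos : 0 < r := div_pos hl0k (h.pos k)
    set g : LV D →ₗ[ℝ] ℝ := l0 - r • LinearMap.proj (none : Option (Fin D)) with hg
    have hgx : ∀ x : LV D, g x = l0 x - r * x none := by
      intro x; simp [hg]
    have hgk : g (V k) = 0 := by
      rw [hgx, hr, div_mul_cancel₀ _ (h.pos k).ne', sub_self]
    have hgv0 : g (V v0) < 0 := by
      have e1 : l0 (V v0) = 0 := (hl0' v0).mp (by simp)
      rw [hgx, e1]
      have := mul_pos hrpos (h.pos v0)
      linarith
    obtain ⟨y, a, h1, h2, h3, h4⟩ := c2_one C2 hD h k v0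
    have hgy : g y = 0 := by
      obtain ⟨c, rfl⟩ := Submodule.mem_span_singleton.mp h1
      rw [map_smul, hgk, smul_zero]
    rw [h4, map_add, hgy, zero_add, map_sum] at hgv0
    have hex : ∃ l, g (a l • V l) < 0 := by
      by_contra hno
      push Not at hno
      exact absurd hgv0 (not_lt.mpr (Finset.sum_nonneg (fun l _ => hno l)))
    obtain ⟨l, hl⟩ := hex
    rw [map_smul, smul_eq_mul] at hl
    have hal : a l ≠ 0 := by
      intro h0; rw [h0, zero_mul] at hl; exact lt_irrefl _ hl
    have hgl : g (V l) < 0 := by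
      by_contra hge
      push Not at hge
      exact absurd hl (not_lt.mpr (mul_nonneg (h2 l) hge))
    obtain ⟨hlk, hFl⟩ := h3 l hal
    have hlt : l0 (V l) / V l none < r := by
      rw [div_lt_iff₀ (h.pos l)]
      rw [hgx] at hgl
      linarith
    have hTl : T l = T v0 := by
      by_contra hne'
      exact absurd (hmin l hne') (not_le.mpr hlt)
    exact hk ((agree C1 C2 hD h V' k l hFl hlk (T k) (T l) (hT2 k) (hT2 l)).trans hTl)
  refine ⟨T v0, hT1 v0, fun i => ?_⟩
  rw [← hall i]
  exact hT2 i i (Or.inl rfl)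

end Pool.Agent.H138R3.ES.Glue
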